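import Pool.Agent.H916.Fam

/-!
# MP_62070a_ag, Q1: fibres of dimension at most one

Let `k` be an algebraically closed field of characteristic zero and `f : X → Y` a morphism of
projective schemes over `k`, given by its graph in `ℙ^N × ℙ^M` (`Family`): `Y ⊂ ℙ^N` is any closed
subset and `X ⊂ Y × ℙ^M` is any closed subset. If `Y` is algebraically hyperbolic, all fibres `X_y`,
`y ∈ Y(k)`, are algebraically hyperbolic (the constants may depend on the fibre), and all but
finitely many of them have dimension at most one, then `X` is algebraically hyperbolic.

The proof: let `B0 ⊂ B` be coordinate rings of `f(Z) ⊂ Y` and `Z ⊂ X`, where `Z` is irreducible. The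
relative height inequality `deg φ^* O(0, 1) ≤ A (max (2 g - 2) 0 + deg φ^* O(1, 0))` for the maps
`φ : C → Z`, outside a proper closed subset, is proved in an ultraproduct of counterexamples with a
vector field with few poles and no zeros: the functions of small degree form a relatively
algebraically closed field `S` which is stable under the vector field `D`, and the generic point of
`Z` gives a curve over `S` of genus at least two, with function field `M`, and a point of it which is
not defined over `S`. By interpolation `D` maps `M` into a finite extension of `M` and it is regular
at all places, so the pluricanonical forms evaluated at the point give a horizontal point, which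
is impossible. If the genus is at most one the generic fibre specializes to maps from curves of genus
one to the fibres over closed points.
-/

set_option autoImplicit false

namespace Pool.Agent.Results.MP_62070a_ag.FibresOfDimensionOne

open Pool.Agent.H916

/-- **The fibration property for fibres of dimension at most one.** -/
theorem result {k : Type} [Field k] [IsAlgClosed k] [CharZero k] {N M : ℕ} (X : Family k N M)
    (hY : X.base.AlgHyp)
    (hfib : ∀ c : Fin (N + 1) → k, X.base.Pt c → (X.fibre c).AlgHyp)
    (T : Set (Fin (N + 1) → k)) (hT : T.Finite)
    (hdim : ∀ c : Fin (N + 1) → k, X.base.Pt c → (∀ t ∈ T, ∀ a : k, c ≠ fun l => a * t l) →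
      (X.fibre c).DimLE 1) : X.AlgHyp :=
  X.fibration hY hfib T hT hdim

end Pool.Agent.Results.MP_62070a_ag.FibresOfDimensionOne
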